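import Mathlib

set_option autoImplicit false

namespace Pool.Agent.Results.MP_dc74b6_ag.Triangle

open MvPolynomial

/-- A clutter: nonempty edges, none contained in another. -/
def IsClutter {n : ℕ} (E : Finset (Finset (Fin n))) : Prop :=
  (∀ e ∈ E, e.Nonempty) ∧ ∀ e ∈ E, ∀ e' ∈ E, e ⊆ e' → e = e'

/-- The edge ideal. -/
noncomputable def edgeIdeal (k : Type) [Field k] {n : ℕ} (E : Finset (Finset (Fin n))) :
    Ideal (MvPolynomial (Fin n) k) :=
  Ideal.span {f | ∃ e ∈ E, f = ∏ i ∈ e, X i}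

/-- The substitution x_i ↦ sum over j ≤ s of x_(i,j) t^j. -/
noncomputable def subst (k : Type) [Field k] (n s : ℕ) :
    MvPolynomial (Fin n) k →ₐ[k] Polynomial (MvPolynomial (Fin n × Fin (s + 1)) k) :=
  aeval fun i => ∑ j : Fin (s + 1), Polynomial.C (X (i, j)) * Polynomial.X ^ (j : ℕ)

/-- The s-jet ideal of an ideal I. -/
noncomputable def jetIdeal {k : Type} [Field k] {n : ℕ} (s : ℕ) (I : Ideal (MvPolynomial (Fin n) k)) :
    Ideal (MvPolynomial (Fin n × Fin (s + 1)) k) :=
  Ideal.span {g | ∃ f ∈ I, ∃ j ≤ s, g = (subst k n s f).coeff j}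

/-- J has an associated prime that is not minimal over J. -/
def HasEmbeddedComponent {S : Type} [CommRing S] (J : Ideal S) : Prop :=
  ∃ P ∈ associatedPrimes S (S ⧸ J), P ∉ J.minimalPrimes

def tri : Finset (Finset (Fin 3)) := {{0, 1}, {0, 2}, {1, 2}}

variable {k : Type} [Field k]

lemma jet_le_ker {s : ℕ} {W : Type} [CommRing W] (ψ : MvPolynomial (Fin 3 × Fin (s + 1)) k →+* W)
    (h : ∀ a b : Fin 3, a < b →
      Polynomial.X ^ (s + 1) ∣ (subst k 3 s (X a)).map ψ * (subst k 3 s (X b)).map ψ) :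
    jetIdeal s (edgeIdeal k tri) ≤ RingHom.ker ψ := by
  have h1 : edgeIdeal k tri ≤ (Ideal.span {Polynomial.X ^ (s + 1)}).comap
      ((Polynomial.mapRingHom ψ).comp (subst k 3 s).toRingHom) := by
    rw [edgeIdeal, Ideal.span_le]
    rintro _ ⟨e, he, rfl⟩
    rw [SetLike.mem_coe, Ideal.mem_comap, Ideal.mem_span_singleton]
    simp only [tri, Finset.mem_insert, Finset.mem_singleton] at he
    rcases he with rfl | rfl | rfl
    · simpa using h 0 1 (by decide)
    · simpa using h 0 2 (by decide)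
    · simpa using h 1 2 (by decide)
  rw [jetIdeal, Ideal.span_le]
  rintro _ ⟨f, hf, j, hj, rfl⟩
  have h2 := Ideal.mem_span_singleton.1 (h1 hf)
  rw [Polynomial.X_pow_dvd_iff] at h2
  simpa using h2 j (by omega)

lemma jet_mem {s : ℕ} (a b : Fin 3) (hab : a < b) (j : ℕ) (hj : j ≤ s) :
    (subst k 3 s (X a) * subst k 3 s (X b)).coeff j ∈ jetIdeal s (edgeIdeal k tri) := by
  apply Ideal.subset_span
  refine ⟨X a * X b, ?_, j, hj, by rw [map_mul]⟩
  apply Ideal.subset_span
  refine ⟨{a, b}, ?_, by rw [Finset.prod_pair hab.ne]⟩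
  revert a b
  decide

lemma embedded {σ : Type} [Finite σ] [DecidableEq σ] (J : Ideal (MvPolynomial σ k))
    (u : MvPolynomial σ k)
    (hu : u ∉ J) (A : Finset σ) (hA : ∀ v ∈ A, X v * u ∈ J) (w : σ) (hw : w ∉ A) (hw' : X w * u ∈ J)
    (hJ : J ≤ RingHom.ker (aeval fun v => if v ∈ A then 0 else X v :
      MvPolynomial σ k →ₐ[k] MvPolynomial σ k).toRingHom) : HasEmbeddedComponent J := by
  have hu0 : Ideal.Quotient.mk J u ≠ 0 := fun h => hu (Ideal.Quotient.eq_zero_iff_mem.1 h)
  obtain ⟨P, hP, hle⟩ := exists_le_isAssociatedPrime_of_isNoetherianRing (MvPolynomial σ k) _ hu0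
  have hmem : ∀ g, g * u ∈ J → g ∈ P := by
    intro g hg
    apply hle
    rw [Submodule.mem_colon_singleton, Submodule.mem_bot]
    exact Ideal.Quotient.eq_zero_iff_mem.2 hg
  refine ⟨P, hP, fun hmin => ?_⟩
  set π : MvPolynomial σ k →ₐ[k] MvPolynomial σ k := aeval fun v => if v ∈ A then 0 else X v
  have hsub : ∀ f, f - π f ∈ P := by
    intro f
    induction f using MvPolynomial.induction_on with
    | C a => simp
    | add p q hp hq =>
      have : p + q - π (p + q) = (p - π p) + (q - π q) := by rw [map_add]; ring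
      rw [this]; exact add_mem hp hq
    | mul_X p v hp =>
      have : p * X v - π (p * X v) = (p - π p) * X v + π p * (X v - π (X v)) := by
        rw [map_mul]; ring
      rw [this]
      refine add_mem (Ideal.mul_mem_right _ _ hp) (Ideal.mul_mem_left _ _ ?_)
      by_cases hv : v ∈ A
      · simpa [π, hv] using hmem _ (hA v hv)
      · simp [π, hv]
  have hker : RingHom.ker π.toRingHom ≤ P := by
    intro f hf
    have h := hsub f
    have hf' : π f = 0 := hf
    rwa [hf', sub_zero] at h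
  have := hmin.2 ⟨RingHom.ker_isPrime π.toRingHom, hJ⟩ hker (hmem _ hw')
  have h2 : π (X w) = 0 := this
  simp [π, hw] at h2

lemma root_pow (s : ℕ) : (AdjoinRoot.root (Polynomial.X ^ (s + 1) : Polynomial k)) ^ (s + 1) = 0 ∧
    (AdjoinRoot.root (Polynomial.X ^ (s + 1) : Polynomial k)) ^ s ≠ 0 := by
  rw [← AdjoinRoot.mk_X, ← map_pow, ← map_pow, Ne, AdjoinRoot.mk_eq_zero, AdjoinRoot.mk_eq_zero]
  refine ⟨dvd_rfl, fun h => ?_⟩
  have := Polynomial.natDegree_le_of_dvd h (by simp)
  simp at this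

lemma case1 (h2 : (2 : k) ≠ 0) : HasEmbeddedComponent (jetIdeal 1 (edgeIdeal k tri)) := by
  have m := fun a b hab j hj => jet_mem (k := k) (s := 1) a b hab j hj
  have a0 := m 0 1 (by decide) 0 (by omega)
  have a1 := m 0 1 (by decide) 1 (by omega)
  have b0 := m 0 2 (by decide) 0 (by omega)
  have b1 := m 0 2 (by decide) 1 (by omega)
  have c0 := m 1 2 (by decide) 0 (by omega)
  have c1 := m 1 2 (by decide) 1 (by omega)
  simp only [Polynomial.coeff_mul, Finset.Nat.antidiagonal_succ] at a0 a1 b0 b1 c0 c1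
  simp [subst, Fin.sum_univ_succ, Polynomial.coeff_X, Polynomial.coeff_C] at a0 a1 b0 b1 c0 c1
  set J := jetIdeal 1 (edgeIdeal k tri)
  apply embedded J (X (0, 0) * X (1, 1)) ?_ {(0, 0), (1, 0), (2, 0)} ?_ (2, 1) (by decide) ?_ ?_
  · intro hu
    let ε := AdjoinRoot.root (Polynomial.X ^ (1 + 1) : Polynomial k)
    obtain ⟨e1, e2⟩ := root_pow (k := k) 1
    have := jet_le_ker (s := 1) (eval₂Hom (algebraMap k _)
      (fun v : Fin 3 × Fin 2 => (![![ε, 1], ![-ε, 1], ![0, 0]] : Fin 3 → Fin 2 → _) v.1 v.2)) (by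
        intro a b hab
        fin_cases a <;> fin_cases b <;> simp at hab <;> simp [subst, Fin.sum_univ_succ]
        refine ⟨1, ?_⟩
        have : Polynomial.C ε ^ 2 = 0 := by rw [← map_pow]; exact (congrArg _ e1).trans (map_zero _)
        linear_combination -this) hu
    simp [RingHom.mem_ker] at this
    exact e2 (by simpa using this)
  · intro v hv
    simp only [Finset.mem_insert, Finset.mem_singleton] at hv
    rcases hv with rfl | rfl | rfl
    · have := sub_mem (J.mul_mem_left (X (0, 0)) a1) (J.mul_mem_left (X (0, 1)) a0)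
      exact (by ring_nf at this ⊢; exact this)
    · have := J.mul_mem_left (X (1, 1)) a0
      exact (by ring_nf at this ⊢; exact this)
    · have := J.mul_mem_left (X (1, 1)) b0
      exact (by ring_nf at this ⊢; exact this)
  · have := J.mul_mem_left (C (2⁻¹ : k)) (sub_mem (add_mem (J.mul_mem_left (X (2, 1)) a1)
      (J.mul_mem_left (X (1, 1)) b1)) (J.mul_mem_left (X (0, 1)) c1))
    have e : (C (2⁻¹ : k) * 2 : MvPolynomial (Fin 3 × Fin 2) k) = 1 := by
      rw [← map_ofNat C 2, ← map_mul, inv_mul_cancel₀ h2, map_one]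
    refine (congrArg (· ∈ J) ?_).mp this
    linear_combination (X (2, 1) * (X (0, 0) * X (1, 1))) * e
  · apply jet_le_ker
    intro a b hab
    fin_cases a <;> fin_cases b <;> simp at hab <;> simp [subst, Fin.sum_univ_succ]
    · exact ⟨Polynomial.C (X (0, 1)) * Polynomial.C (X (1, 1)), by ring⟩
    · exact ⟨Polynomial.C (X (0, 1)) * Polynomial.C (X (2, 1)), by ring⟩
    · exact ⟨Polynomial.C (X (1, 1)) * Polynomial.C (X (2, 1)), by ring⟩

lemma case2 (h3 : (3 : k) ≠ 0) : HasEmbeddedComponent (jetIdeal 2 (edgeIdeal k tri)) := by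
  have m := fun a b hab j hj => jet_mem (k := k) (s := 2) a b hab j hj
  have a0 := m 0 1 (by decide) 0 (by omega)
  have a1 := m 0 1 (by decide) 1 (by omega)
  have a2 := m 0 1 (by decide) 2 (by omega)
  have b0 := m 0 2 (by decide) 0 (by omega)
  have b1 := m 0 2 (by decide) 1 (by omega)
  have b2 := m 0 2 (by decide) 2 (by omega)
  have c0 := m 1 2 (by decide) 0 (by omega)
  have c2 := m 1 2 (by decide) 2 (by omega)
  simp only [Polynomial.coeff_mul, Finset.Nat.antidiagonal_succ] at a0 a1 a2 b0 b1 b2 c0 c2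
  simp [subst, Fin.sum_univ_succ,
    Polynomial.coeff_X, Polynomial.coeff_C, Polynomial.coeff_X_pow] at a0 a1 a2 b0 b1 b2 c0 c2
  set J := jetIdeal 2 (edgeIdeal k tri)
  apply embedded J (X (0, 0) ^ 2 * X (1, 2)) ?_ {(0, 0), (1, 0), (2, 0), (1, 1), (2, 1)} ?_ (2, 2)
    (by decide) ?_ ?_
  · intro hu
    let ε := AdjoinRoot.root (Polynomial.X ^ (2 + 1) : Polynomial k)
    obtain ⟨e1, e2⟩ := root_pow (k := k) 2
    have := jet_le_ker (s := 2) (eval₂Hom (algebraMap k _)
      (fun v : Fin 3 × Fin 3 =>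
        (![![ε, 1, 0], ![ε ^ 2, -ε, 1], ![0, 0, 0]] : Fin 3 → Fin 3 → _) v.1 v.2)) (by
        intro a b hab
        fin_cases a <;> fin_cases b <;> simp at hab <;> simp [subst, Fin.sum_univ_succ]
        refine ⟨1, ?_⟩
        have : Polynomial.C ε ^ 3 = 0 := by rw [← map_pow]; exact (congrArg _ e1).trans (map_zero _)
        linear_combination this) hu
    simp only [RingHom.mem_ker, map_mul, map_pow, eval₂Hom_X'] at this
    exact e2 (by simpa using this)
  · intro v hv
    simp only [Finset.mem_insert, Finset.mem_singleton] at hv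
    rcases hv with rfl | rfl | rfl | rfl | rfl
    · have := add_mem (sub_mem (J.mul_mem_left (X (0, 1) ^ 2 - X (0, 0) * X (0, 2)) a0)
        (J.mul_mem_left (X (0, 0) * X (0, 1)) a1)) (J.mul_mem_left (X (0, 0) ^ 2) a2)
      exact (by ring_nf at this ⊢; exact this)
    · have := J.mul_mem_left (X (0, 0) * X (1, 2)) a0
      exact (by ring_nf at this ⊢; exact this)
    · have := J.mul_mem_left (X (0, 0) * X (1, 2)) b0
      exact (by ring_nf at this ⊢; exact this)
    · have := sub_mem (J.mul_mem_left (X (0, 0) * X (1, 2)) a1)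
        (J.mul_mem_left (X (0, 1) * X (1, 2)) a0)
      exact (by ring_nf at this ⊢; exact this)
    · have := sub_mem (J.mul_mem_left (X (0, 0) * X (1, 2)) b1)
        (J.mul_mem_left (X (0, 1) * X (1, 2)) b0)
      exact (by ring_nf at this ⊢; exact this)
  · have := J.mul_mem_left (C (3⁻¹ : k)) (add_mem (add_mem (add_mem (add_mem (add_mem (add_mem
      (add_mem (J.mul_mem_left (-(X (0, 2) * X (2, 2))) a0)
      (J.mul_mem_left (X (0, 2) * X (2, 1) - X (0, 1) * X (2, 2)) a1))
      (J.mul_mem_left (X (0, 0) * X (2, 2) + X (0, 2) * X (2, 0) - X (0, 1) * X (2, 1)) a2))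
      (J.mul_mem_left (-(3 * X (0, 2) * X (1, 2))) b0))
      (J.mul_mem_left (-(X (0, 2) * X (1, 1)) - X (0, 1) * X (1, 2)) b1))
      (J.mul_mem_left (2 * X (0, 0) * X (1, 2)) b2))
      (J.mul_mem_left (-(X (0, 2) ^ 2)) c0)) (J.mul_mem_left (X (0, 1) ^ 2) c2))
    have e : (C (3⁻¹ : k) * 3 : MvPolynomial (Fin 3 × Fin 3) k) = 1 := by
      rw [← map_ofNat C 3, ← map_mul, inv_mul_cancel₀ h3, map_one]
    refine (congrArg (· ∈ J) ?_).mp this
    linear_combination (X (2, 2) * (X (0, 0) ^ 2 * X (1, 2))) * e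
  · apply jet_le_ker
    intro a b hab
    fin_cases a <;> fin_cases b <;> simp at hab <;> simp [subst, Fin.sum_univ_succ]
    · exact ⟨(Polynomial.C (X (0, 1)) + Polynomial.C (X (0, 2)) * Polynomial.X)
        * Polynomial.C (X (1, 2)), by ring⟩
    · exact ⟨(Polynomial.C (X (0, 1)) + Polynomial.C (X (0, 2)) * Polynomial.X)
        * Polynomial.C (X (2, 2)), by ring⟩
    · exact ⟨Polynomial.C (X (1, 2)) * Polynomial.C (X (2, 2)) * Polynomial.X, by ring⟩

theorem result (k : Type) [Field k] :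
    ∃ (n : ℕ) (E : Finset (Finset (Fin n))) (s : ℕ), IsClutter E ∧
      HasEmbeddedComponent (jetIdeal s (edgeIdeal k E)) := by
  have hc : IsClutter tri := ⟨by decide, by decide⟩
  by_cases h2 : (2 : k) = 0
  · refine ⟨3, tri, 2, hc, case2 fun h3 => ?_⟩
    exact one_ne_zero (by linear_combination h3 - h2 : (1 : k) = 0)
  · exact ⟨3, tri, 1, hc, case1 h2⟩

end Pool.Agent.Results.MP_dc74b6_ag.Triangle
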